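import Mathlib

/-! A Whittaker module of the Witt algebra is simple (abstract form). -/

set_option autoImplicit false
set_option linter.unusedSectionVars false

namespace Pool.Agent.TH972.PW

variable {k U V : Type*} [Field k] [Ring U] [Algebra k U]
  [AddCommGroup V] [Module k V] [Module U V] [IsScalarTower k U V]

/-- the relations of the Witt algebra and a Whittaker vector -/
structure Dat (k : Type*) {U V : Type*} [Field k] [Ring U] [Algebra k U]
    [AddCommGroup V] [Module k V] [Module U V] [IsScalarTower k U V] (e : ℤ → U) (v : V) : Prop where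
  rel : ∀ i j : ℤ, e i * e j - e j * e i = ((j - i : ℤ) : k) • e (i + j)
  hv : v ≠ 0
  v2 : e 2 • v = v
  v1 : ∀ j : ℤ, 1 ≤ j → j ≠ 2 → e j • v = 0

def E (e : ℤ → U) (v : V) (l : List ℕ) : V := (l.map (fun n : ℕ => e (-(n : ℤ)))).prod • v

lemma E_nil (e : ℤ → U) (v : V) : E e v [] = v := by simp [E]

lemma E_cons (e : ℤ → U) (v : V) (n : ℕ) (l : List ℕ) :
    E e v (n :: l) = e (-(n : ℤ)) • E e v l := by simp [E, mul_smul]

/-- the filtration -/
def B (k : Type*) {U V : Type*} [Field k] [Ring U] [Algebra k U]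
    [AddCommGroup V] [Module k V] [Module U V] (e : ℤ → U) (v : V) (w ℓ : ℤ) : Submodule k V :=
  Submodule.span k {x | ∃ l : List ℕ, x = E e v l ∧
    (((l.sum : ℕ) : ℤ) < w ∨ (((l.sum : ℕ) : ℤ) = w ∧ (l.length : ℤ) ≤ ℓ))}

variable {e : ℤ → U} {v : V}

lemma E_mem {w ℓ : ℤ} (l : List ℕ)
    (h : ((l.sum : ℕ) : ℤ) < w ∨ (((l.sum : ℕ) : ℤ) = w ∧ (l.length : ℤ) ≤ ℓ)) :
    E e v l ∈ B k e v w ℓ := Submodule.subset_span ⟨l, rfl, h⟩

lemma B_mono {w ℓ w' ℓ' : ℤ} (h : w < w' ∨ (w = w' ∧ ℓ ≤ ℓ')) : B k e v w ℓ ≤ B k e v w' ℓ' := by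
  apply Submodule.span_mono
  rintro x ⟨l, rfl, hl⟩
  exact ⟨l, rfl, by omega⟩

lemma map_mem (f : V →ₗ[k] V) {S : Set V} {M : Submodule k V} (h : ∀ x ∈ S, f x ∈ M) {x : V}
    (hx : x ∈ Submodule.span k S) : f x ∈ M := by
  have : Submodule.span k S ≤ M.comap f := Submodule.span_le.2 h
  exact this hx

lemma act_mem (u : U) {S : Set V} {M : Submodule k V} (h : ∀ x ∈ S, u • x ∈ M) {x : V}
    (hx : x ∈ Submodule.span k S) : u • x ∈ M := by
  have := map_mem (Algebra.lsmul k k V u) (S := S) (M := M) (by simpa using h) hx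
  simpa using this

lemma B_act (n : ℕ) {w ℓ : ℤ} {x : V} (hx : x ∈ B k e v w ℓ) :
    e (-(n : ℤ)) • x ∈ B k e v (w + n) (ℓ + 1) := by
  refine act_mem _ ?_ hx
  rintro x ⟨l, rfl, hl⟩
  rw [← E_cons]
  apply E_mem
  simp only [List.sum_cons, List.length_cons, Nat.cast_add, Nat.cast_one]
  omega

lemma comm_act (D : Dat k e v) (j : ℤ) (n : ℕ) (y : V) :
    e j • (e (-(n : ℤ)) • y) =
      e (-(n : ℤ)) • (e j • y) + ((-(n : ℤ) - j : ℤ) : k) • (e (j - n) • y) := by
  have h := D.rel j (-(n : ℤ))
  have h2 : e j * e (-(n : ℤ)) = e (-(n : ℤ)) * e j + ((-(n : ℤ) - j : ℤ) : k) • e (j - n) := by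
    rw [show j - (n : ℤ) = j + -(n : ℤ) by ring, ← h]; abel
  rw [← mul_smul, h2, add_smul, mul_smul, smul_assoc]

/-- the character -/
def ps (k : Type*) [Field k] (j : ℤ) : k := if j = 2 then 1 else 0

lemma ev (D : Dat k e v) {j : ℤ} (hj : 1 ≤ j) : e j • v = ps k j • v := by
  unfold ps
  split_ifs with h
  · rw [h, D.v2, one_smul]
  · rw [D.v1 j hj h, zero_smul]

lemma K1 (D : Dat k e v) (l : List ℕ) : ∀ j : ℤ, 1 ≤ j →
    e j • E e v l - ps k j • E e v l ∈
      B k e v (((l.sum : ℕ) : ℤ) - j + 2) ((l.length : ℤ) - 1) := by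
  induction l with
  | nil =>
    intro j hj
    rw [E_nil, ev D hj, sub_self]
    exact Submodule.zero_mem _
  | cons n l ih =>
    intro j hj
    have h1 := B_act n (ih j hj)
    rw [smul_sub, smul_comm (e (-(n : ℤ))) (ps k j)] at h1
    rw [E_cons, comm_act D]
    have e1 : e (-(n : ℤ)) • e j • E e v l + ((-(n : ℤ) - j : ℤ) : k) • e (j - n) • E e v l
        - ps k j • e (-(n : ℤ)) • E e v l =
        (e (-(n : ℤ)) • e j • E e v l - ps k j • e (-(n : ℤ)) • E e v l) +
          ((-(n : ℤ) - j : ℤ) : k) • e (j - n) • E e v l := by abel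
    rw [e1]
    apply Submodule.add_mem
    · refine B_mono ?_ h1
      simp only [List.sum_cons, List.length_cons, Nat.cast_add, Nat.cast_one]
      omega
    · apply Submodule.smul_mem
      by_cases hn : j ≤ n
      · obtain ⟨d, hd⟩ : ∃ d : ℕ, (n : ℤ) - j = d := ⟨((n : ℤ) - j).toNat, by omega⟩
        rw [show j - (n : ℤ) = -(d : ℤ) by omega, ← E_cons]
        apply E_mem
        simp only [List.sum_cons, List.length_cons, Nat.cast_add, Nat.cast_one]
        omega
      · have h2 := ih (j - n) (by omega)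
        have e2 : e (j - n) • E e v l =
            (e (j - n) • E e v l - ps k (j - n) • E e v l) + ps k (j - n) • E e v l := by abel
        rw [e2]
        apply Submodule.add_mem
        · refine B_mono ?_ h2
          simp only [List.sum_cons, List.length_cons, Nat.cast_add, Nat.cast_one]
          omega
        · unfold ps
          split_ifs with h3
          · rw [one_smul]
            apply E_mem
            simp only [List.sum_cons, List.length_cons, Nat.cast_add, Nat.cast_one]
            omega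
          · rw [zero_smul]; exact Submodule.zero_mem _

lemma K3 (D : Dat k e v) {l l' : List ℕ} (h : l.Perm l') :
    E e v l - E e v l' ∈ B k e v ((l.sum : ℕ) : ℤ) ((l.length : ℤ) - 1) := by
  induction h with
  | nil => rw [sub_self]; exact Submodule.zero_mem _
  | cons n h ih =>
    rw [E_cons, E_cons, ← smul_sub]
    refine B_mono ?_ (B_act n ih)
    simp only [List.sum_cons, List.length_cons, Nat.cast_add, Nat.cast_one]
    omega
  | swap a b l =>
    rw [E_cons, E_cons, E_cons, E_cons, comm_act D]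
    rw [add_sub_cancel_left]
    apply Submodule.smul_mem
    rw [show -(b : ℤ) - (a : ℤ) = -((a + b : ℕ) : ℤ) by push_cast; ring, ← E_cons]
    apply E_mem
    simp only [List.sum_cons, List.length_cons, Nat.cast_add, Nat.cast_one]
    omega
  | trans h1 h2 ih1 ih2 =>
    rename_i l1 l2 l3
    have : E e v l1 - E e v l3 = (E e v l1 - E e v l2) + (E e v l2 - E e v l3) := by abel
    rw [this]
    apply Submodule.add_mem _ ih1
    rw [h1.sum_eq, h1.length_eq]
    exact ih2

lemma K2 (D : Dat k e v) (m : ℕ) (l : List ℕ) :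
    e ((m : ℤ) + 2) • E e v l - ps k ((m : ℤ) + 2) • E e v l +
      (((2 * m + 2) * l.count m : ℕ) : k) • E e v (l.erase m) ∈
      B k e v (((l.sum : ℕ) : ℤ) - m) ((l.length : ℤ) - 2) := by
  induction l with
  | nil =>
    rw [E_nil, ev D (by omega), sub_self]
    simp
  | cons n l ih =>
    have h1 := B_act n ih
    rw [smul_add, smul_sub, smul_comm (e (-(n : ℤ))) (ps k ((m : ℤ) + 2)),
      smul_comm (e (-(n : ℤ))) ((((2 * m + 2) * l.count m : ℕ) : k))] at h1
    rw [E_cons, comm_act D]
    -- the commutator term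
    have h2 : e ((m : ℤ) + 2 - n) • E e v l - (if n = m then (1 : k) else 0) • E e v l ∈
        B k e v ((((n :: l).sum : ℕ) : ℤ) - m) (((n :: l).length : ℤ) - 2) := by
      by_cases hn : (m : ℤ) + 2 ≤ n
      · obtain ⟨d, hd⟩ : ∃ d : ℕ, (n : ℤ) - (m + 2) = d := ⟨((n : ℤ) - (m + 2)).toNat, by omega⟩
        rw [if_neg (by omega), zero_smul, sub_zero,
          show (m : ℤ) + 2 - (n : ℤ) = -(d : ℤ) by omega, ← E_cons]
        apply E_mem
        simp only [List.sum_cons, List.length_cons, Nat.cast_add, Nat.cast_one]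
        omega
      · have h3 := K1 D l ((m : ℤ) + 2 - n) (by omega)
        have e3 : ps k ((m : ℤ) + 2 - n) = if n = m then (1 : k) else 0 := by
          unfold ps
          by_cases hnm : n = m
          · rw [if_pos (by omega), if_pos hnm]
          · rw [if_neg (by omega), if_neg hnm]
        rw [e3] at h3
        refine B_mono ?_ h3
        simp only [List.sum_cons, List.length_cons, Nat.cast_add, Nat.cast_one]
        omega
    have h2' := Submodule.smul_mem _ (((-(n : ℤ) - ((m : ℤ) + 2) : ℤ) : k)) h2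
    have h1' : e (-(n : ℤ)) • e ((m : ℤ) + 2) • E e v l -
        ps k ((m : ℤ) + 2) • e (-(n : ℤ)) • E e v l +
        (((2 * m + 2) * l.count m : ℕ) : k) • e (-(n : ℤ)) • E e v (l.erase m) ∈
        B k e v ((((n :: l).sum : ℕ) : ℤ) - m) (((n :: l).length : ℤ) - 2) := by
      refine B_mono ?_ h1
      simp only [List.sum_cons, List.length_cons, Nat.cast_add, Nat.cast_one]
      omega
    by_cases hnm : n = m
    · subst hnm
      rw [if_pos rfl, one_smul] at h2'
      rw [List.erase_cons_head, List.count_cons_self]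
      -- reorder
      have h4 : (((2 * n + 2) * l.count n : ℕ) : k) • (E e v l - e (-(n : ℤ)) • E e v (l.erase n)) ∈
          B k e v ((((n :: l).sum : ℕ) : ℤ) - n) (((n :: l).length : ℤ) - 2) := by
        by_cases hc : n ∈ l
        · apply Submodule.smul_mem
          rw [← E_cons]
          refine B_mono ?_ (K3 D (List.perm_cons_erase hc))
          simp only [List.sum_cons, List.length_cons, Nat.cast_add, Nat.cast_one]
          omega
        · rw [List.count_eq_zero_of_not_mem hc]
          simp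
      have h5 := Submodule.add_mem _ (Submodule.add_mem _ h1' h2') h4
      convert h5 using 1
      simp only [smul_sub]
      generalize e (-(n : ℤ)) • e ((n : ℤ) + 2) • E e v l = x1
      generalize e ((n : ℤ) + 2 - (n : ℤ)) • E e v l = x2
      generalize e (-(n : ℤ)) • E e v (l.erase n) = x3
      generalize e (-(n : ℤ)) • E e v l = x4
      generalize E e v l = x5
      push_cast
      module
    · rw [if_neg hnm, zero_smul, sub_zero] at h2'
      rw [List.erase_cons_tail (by simpa using hnm), List.count_cons_of_ne hnm, E_cons]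
      have h5 := Submodule.add_mem _ h1' h2'
      convert h5 using 1
      abel

end Pool.Agent.TH972.PW
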