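import Pool.Agent.TH972.PW.Core

set_option autoImplicit false
set_option linter.unusedSectionVars false

namespace Pool.Agent.TH972.PW

variable {k U V : Type*} [Field k] [Ring U] [Algebra k U]
  [AddCommGroup V] [Module k V] [Module U V] [IsScalarTower k U V]
variable {e : ℤ → U} {v : V}

noncomputable def Es (e : ℤ → U) (v : V) (s : Multiset ℕ) : V := E e v s.toList

lemma E_Es (D : Dat k e v) (l : List ℕ) :
    E e v l - Es e v (l : Multiset ℕ) ∈ B k e v ((l.sum : ℕ) : ℤ) ((l.length : ℤ) - 1) := by
  apply K3 D
  rw [← Multiset.coe_eq_coe, Multiset.coe_toList]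

lemma toList_sum (s : Multiset ℕ) : s.toList.sum = s.sum := by
  conv_rhs => rw [← Multiset.coe_toList s]
  rw [Multiset.sum_coe]

lemma Es_mem {w ℓ : ℤ} (s : Multiset ℕ)
    (h : ((s.sum : ℕ) : ℤ) < w ∨ (((s.sum : ℕ) : ℤ) = w ∧ (s.card : ℤ) ≤ ℓ)) :
    Es e v s ∈ B k e v w ℓ := by
  apply E_mem
  rw [toList_sum, Multiset.length_toList]
  exact h

/-- the lowering element -/
noncomputable def dd (k : Type*) {U : Type*} [Field k] [Ring U] [Algebra k U] (e : ℤ → U) (m : ℕ) : U :=
  e ((m : ℤ) + 2) - algebraMap k U (ps k ((m : ℤ) + 2))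

lemma dd_smul (m : ℕ) (x : V) :
    dd k e m • x = e ((m : ℤ) + 2) • x - ps k ((m : ℤ) + 2) • x := by
  rw [dd, sub_smul, algebraMap_smul]

lemma dd_Es (D : Dat k e v) (m : ℕ) (s : Multiset ℕ) :
    dd k e m • Es e v s + (((2 * m + 2) * s.count m : ℕ) : k) • Es e v (s.erase m) ∈
      B k e v (((s.sum : ℕ) : ℤ) - m) ((s.card : ℤ) - 2) := by
  have h := K2 D m s.toList
  rw [toList_sum, Multiset.length_toList, ← dd_smul] at h
  have hc : s.toList.count m = s.count m := by
    conv_rhs => rw [← Multiset.coe_toList s]
    rw [Multiset.coe_count]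
  rw [hc] at h
  by_cases hm : m ∈ s
  · have h2 := E_Es D (s.toList.erase m)
    have e1 : ((s.toList.erase m : List ℕ) : Multiset ℕ) = s.erase m := by
      rw [← Multiset.coe_erase, Multiset.coe_toList]
    have hml : m ∈ s.toList := Multiset.mem_toList.2 hm
    have e2 : (s.toList.erase m).length + 1 = s.card := by
      rw [← Multiset.length_toList s, List.length_erase_of_mem hml]
      have := List.length_pos_of_mem hml
      omega
    have e3 : m + (s.toList.erase m).sum = s.sum := by
      rw [← toList_sum s, List.sum_erase hml]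
    rw [e1] at h2
    have h3 := Submodule.smul_mem _ (((2 * m + 2) * s.count m : ℕ) : k) h2
    have h4 : (((2 * m + 2) * s.count m : ℕ) : k) •
        (E e v (s.toList.erase m) - Es e v (s.erase m)) ∈
        B k e v (((s.sum : ℕ) : ℤ) - m) ((s.card : ℤ) - 2) := by
      refine B_mono ?_ h3
      omega
    have h5 := Submodule.sub_mem _ h h4
    convert h5 using 1
    rw [smul_sub]
    unfold Es
    abel
  · rw [Multiset.count_eq_zero_of_notMem hm] at h ⊢
    simpa [Es] using h

lemma dd_B (D : Dat k e v) (m : ℕ) {w ℓ : ℤ} {x : V} (hx : x ∈ B k e v w ℓ) :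
    dd k e m • x ∈ B k e v (w - m) (ℓ - 1) := by
  refine act_mem _ ?_ hx
  rintro x ⟨l, rfl, hl⟩
  rw [dd_smul]
  have h := K1 D l ((m : ℤ) + 2) (by omega)
  refine B_mono ?_ h
  omega

lemma smul_lc (u : U) (g : Multiset ℕ → V) (c : Multiset ℕ →₀ k) :
    u • Finsupp.linearCombination k g c = c.sum (fun s a => a • (u • g s)) := by
  rw [Finsupp.linearCombination_apply, Finsupp.smul_sum]
  apply Finsupp.sum_congr
  intro s _
  rw [smul_comm]

theorem key [CharZero k] (D : Dat k e v) : ∀ (ℓ : ℕ) (w : ℤ) (c : Multiset ℕ →₀ k),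
    (∀ s ∈ c.support, ((s.sum : ℕ) : ℤ) = w ∧ s.card = ℓ) → c ≠ 0 →
    ∀ x : V, x - Finsupp.linearCombination k (Es e v) c ∈ B k e v w ((ℓ : ℤ) - 1) →
      ∃ a : U, a • x = v := by
  intro ℓ
  induction ℓ with
  | zero =>
    intro w c hc hc0 x hx
    obtain ⟨s0, hs0⟩ := Finsupp.support_nonempty_iff.2 hc0
    have hs := hc s0 hs0
    have hs00 : s0 = 0 := Multiset.card_eq_zero.1 hs.2
    have hw : w = 0 := by rw [← hs.1, hs00]; simp
    have hB : B k e v w (((0 : ℕ) : ℤ) - 1) = ⊥ := by
      rw [B, Submodule.span_eq_bot]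
      rintro x ⟨l, -, hl⟩
      exfalso
      omega
    rw [hB, Submodule.mem_bot, sub_eq_zero] at hx
    have hcs : c = Finsupp.single 0 (c 0) := by
      ext s
      by_cases h : s = 0
      · rw [h, Finsupp.single_eq_same]
      · rw [Finsupp.single_eq_of_ne h]
        by_contra hne
        exact h (Multiset.card_eq_zero.1 (hc s (Finsupp.mem_support_iff.2 hne)).2)
    have hc00 : c 0 ≠ 0 := by
      rw [← hs00]; exact Finsupp.mem_support_iff.1 hs0
    refine ⟨algebraMap k U (c 0)⁻¹, ?_⟩
    rw [algebraMap_smul, hx, hcs, Finsupp.linearCombination_single, Finsupp.single_eq_same, smul_smul,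
      inv_mul_cancel₀ hc00, one_smul]
    simp [Es, E_nil]
  | succ ℓ ih =>
    intro w c hc hc0 x hx
    obtain ⟨s0, hs0⟩ := Finsupp.support_nonempty_iff.2 hc0
    have hs := hc s0 hs0
    obtain ⟨m, hm⟩ : ∃ m, m ∈ s0 := Multiset.card_pos_iff_exists_mem.1 (by omega)
    set c' : Multiset ℕ →₀ k :=
      c.sum (fun s a => Finsupp.single (s.erase m) (-(((2 * m + 2) * s.count m : ℕ) : k) * a)) with hc'
    have hc'v : ∀ t, c' t = c.sum (fun s a => if s.erase m = t then
        (-(((2 * m + 2) * s.count m : ℕ) : k) * a) else 0) := by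
      intro t
      rw [hc', Finsupp.sum_apply]
      apply Finsupp.sum_congr
      intro s _
      rw [Finsupp.single_apply]
    have hsupp : ∀ t ∈ c'.support, ((t.sum : ℕ) : ℤ) = w - m ∧ t.card = ℓ := by
      intro t ht
      rw [Finsupp.mem_support_iff, hc'v, Finsupp.sum] at ht
      obtain ⟨s, hs1, hs2⟩ := Finset.exists_ne_zero_of_sum_ne_zero ht
      split_ifs at hs2 with h
      · have hms : m ∈ s := by
          by_contra hms
          rw [Multiset.count_eq_zero_of_notMem hms] at hs2
          simp at hs2
        have h1 := hc s hs1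
        have h2 : m + t.sum = s.sum := by
          rw [← h, ← Multiset.sum_cons, Multiset.cons_erase hms]
        have h3 : t.card + 1 = s.card := by
          rw [← h, ← Multiset.card_cons m, Multiset.cons_erase hms]
        omega
      · exact absurd rfl hs2
    have hc'0 : c' ≠ 0 := by
      intro h0
      have h1 : c' (s0.erase m) = 0 := by rw [h0]; rfl
      rw [hc'v, Finsupp.sum, Finset.sum_eq_single s0] at h1
      · rw [if_pos rfl] at h1
        have h2 : c s0 ≠ 0 := Finsupp.mem_support_iff.1 hs0
        have h3 : (((2 * m + 2) * s0.count m : ℕ) : k) ≠ 0 := by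
          rw [Nat.cast_ne_zero]
          have := Multiset.count_pos.2 hm
          positivity
        have := mul_ne_zero (neg_ne_zero.2 h3) h2
        exact this h1
      · intro s hs1 hs2
        split_ifs with h
        · by_cases hms : m ∈ s
          · exfalso
            apply hs2
            rw [← Multiset.cons_erase hms, h, Multiset.cons_erase hm]
          · rw [Multiset.count_eq_zero_of_notMem hms]; simp
        · rfl
      · intro h; exact absurd hs0 h
    have hmem : dd k e m • x - Finsupp.linearCombination k (Es e v) c' ∈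
        B k e v (w - m) ((ℓ : ℤ) - 1) := by
      have e1 : dd k e m • x - Finsupp.linearCombination k (Es e v) c' =
          dd k e m • (x - Finsupp.linearCombination k (Es e v) c) +
          (dd k e m • Finsupp.linearCombination k (Es e v) c -
            Finsupp.linearCombination k (Es e v) c') := by
        rw [smul_sub]; abel
      rw [e1]
      apply Submodule.add_mem
      · have := dd_B D m hx
        refine B_mono ?_ this
        push_cast
        omega
      · rw [smul_lc, hc', map_finsuppSum, Finsupp.sum, Finsupp.sum, ← Finset.sum_sub_distrib]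
        apply Submodule.sum_mem
        intro s hs1
        have h1 := hc s hs1
        have h2 := Submodule.smul_mem _ (c s) (dd_Es D m s)
        rw [Finsupp.linearCombination_single]
        have h3 : c s • dd k e m • Es e v s -
            (-(((2 * m + 2) * s.count m : ℕ) : k) * c s) • Es e v (s.erase m) =
            c s • (dd k e m • Es e v s +
              (((2 * m + 2) * s.count m : ℕ) : k) • Es e v (s.erase m)) := by
          generalize dd k e m • Es e v s = y1
          generalize Es e v (s.erase m) = y2
          generalize (((2 * m + 2) * s.count m : ℕ) : k) = z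
          module
        rw [h3]
        refine B_mono ?_ h2
        omega
    obtain ⟨a, ha⟩ := ih (w - m) c' hsupp hc'0 (dd k e m • x) hmem
    exact ⟨a * dd k e m, by rw [mul_smul, ha]⟩

/-- any combination of sorted monomials is nonzero, and generates `v` -/
theorem key2 [CharZero k] (D : Dat k e v) (c : Multiset ℕ →₀ k) (hc0 : c ≠ 0) :
    ∃ a : U, a • Finsupp.linearCombination k (Es e v) c = v := by
  have hne : c.support.Nonempty := Finsupp.support_nonempty_iff.2 hc0
  obtain ⟨s1, hs1, hmax1⟩ := c.support.exists_max_image (fun s => s.sum) hne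
  have hne2 : (c.support.filter (fun s => s.sum = s1.sum)).Nonempty :=
    ⟨s1, Finset.mem_filter.2 ⟨hs1, rfl⟩⟩
  obtain ⟨s2, hs2, hmax2⟩ :=
    (c.support.filter (fun s => s.sum = s1.sum)).exists_max_image (fun s => s.card) hne2
  rw [Finset.mem_filter] at hs2
  let p : Multiset ℕ → Prop := fun s => s.sum = s2.sum ∧ s.card = s2.card
  have hdec : c = c.filter p + c.filter (fun s => ¬ p s) := (Finsupp.filter_add_filter_not c p).symm
  apply key D s2.card ((s2.sum : ℕ) : ℤ) (c.filter p)
  · intro s hs
    rw [Finsupp.support_filter, Finset.mem_filter] at hs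
    exact ⟨by rw [hs.2.1], hs.2.2⟩
  · intro h0
    have : (c.filter p) s2 = 0 := by rw [h0]; rfl
    rw [Finsupp.filter_apply_pos _ _ (show p s2 from ⟨rfl, rfl⟩)] at this
    exact (Finsupp.mem_support_iff.1 hs2.1) this
  · have e1 : Finsupp.linearCombination k (Es e v) c -
        Finsupp.linearCombination k (Es e v) (c.filter p) =
        Finsupp.linearCombination k (Es e v) (c.filter (fun s => ¬ p s)) := by
      have h := congrArg (fun z => Finsupp.linearCombination k (Es e v) z) hdec
      simp only [map_add] at h
      rw [sub_eq_iff_eq_add', ← h]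
    rw [e1, Finsupp.linearCombination_apply, Finsupp.sum]
    apply Submodule.sum_mem
    intro s hs
    rw [Finsupp.support_filter, Finset.mem_filter] at hs
    apply Submodule.smul_mem
    apply Es_mem
    have h1 := hmax1 s hs.1
    have h2 : s.sum = s1.sum → s.card ≤ s2.card := fun h =>
      hmax2 s (Finset.mem_filter.2 ⟨hs.1, h⟩)
    have h3 : ¬ (s.sum = s2.sum ∧ s.card = s2.card) := hs.2
    have h4 := hs2.2
    by_cases h5 : s.sum = s1.sum
    · have := h2 h5
      right
      refine ⟨by omega, ?_⟩
      have : s.card ≠ s2.card := fun h => h3 ⟨by omega, h⟩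
      omega
    · left
      omega

end Pool.Agent.TH972.PW
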