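import Pool.Agent.TH972.PW.Core2

set_option autoImplicit false
set_option linter.unusedSectionVars false

namespace Pool.Agent.TH972.PW

variable {k U V : Type*} [Field k] [Ring U] [Algebra k U]
  [AddCommGroup V] [Module k V] [Module U V] [IsScalarTower k U V]
variable {e : ℤ → U} {v : V}

/-- words of length `< r` -/
def GG (k : Type*) {U V : Type*} [Field k] [Ring U] [Algebra k U]
    [AddCommGroup V] [Module k V] [Module U V] (e : ℤ → U) (v : V) (r : ℕ) : Submodule k V :=
  Submodule.span k {x | ∃ l : List ℕ, x = E e v l ∧ l.length < r}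

/-- sorted words of length `< r` -/
noncomputable def LC (k : Type*) {U V : Type*} [Field k] [Ring U] [Algebra k U]
    [AddCommGroup V] [Module k V] [Module U V] (e : ℤ → U) (v : V) (r : ℕ) : Submodule k V :=
  Submodule.span k (Es e v '' {s | s.card < r})

lemma E_memGG {r : ℕ} (l : List ℕ) (h : l.length < r) : E e v l ∈ GG k e v r :=
  Submodule.subset_span ⟨l, rfl, h⟩

lemma GG_mono {r r' : ℕ} (h : r ≤ r') : GG k e v r ≤ GG k e v r' := by
  apply Submodule.span_mono
  rintro x ⟨l, rfl, hl⟩
  exact ⟨l, rfl, by omega⟩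

lemma LC_mono {r r' : ℕ} (h : r ≤ r') : LC k e v r ≤ LC k e v r' := by
  apply Submodule.span_mono
  apply Set.image_mono
  intro s hs
  exact lt_of_lt_of_le hs h

lemma GG_act (n : ℕ) {r : ℕ} {x : V} (hx : x ∈ GG k e v r) :
    e (-(n : ℤ)) • x ∈ GG k e v (r + 1) := by
  refine act_mem _ ?_ hx
  rintro x ⟨l, rfl, hl⟩
  rw [← E_cons]
  apply E_memGG
  simp only [List.length_cons]
  omega

lemma K3L (D : Dat k e v) {l l' : List ℕ} (h : l.Perm l') :
    E e v l - E e v l' ∈ GG k e v l.length := by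
  induction h with
  | nil => rw [sub_self]; exact Submodule.zero_mem _
  | cons n h ih =>
    rw [E_cons, E_cons, ← smul_sub]
    exact GG_act n ih
  | swap a b l =>
    rw [E_cons, E_cons, E_cons, E_cons, comm_act D]
    rw [add_sub_cancel_left]
    apply Submodule.smul_mem
    rw [show -(b : ℤ) - (a : ℤ) = -((a + b : ℕ) : ℤ) by push_cast; ring, ← E_cons]
    apply E_memGG
    simp only [List.length_cons]
    omega
  | trans h1 h2 ih1 ih2 =>
    rename_i l1 l2 l3
    have : E e v l1 - E e v l3 = (E e v l1 - E e v l2) + (E e v l2 - E e v l3) := by abel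
    rw [this]
    apply Submodule.add_mem _ ih1
    rw [h1.length_eq]
    exact ih2

lemma GG_le (D : Dat k e v) : ∀ r : ℕ, GG k e v r ≤ LC k e v r := by
  intro r
  induction r using Nat.strong_induction_on with
  | _ r ih =>
    apply Submodule.span_le.2
    rintro x ⟨l, rfl, hl⟩
    have h1 : E e v l - Es e v (l : Multiset ℕ) ∈ GG k e v l.length := by
      apply K3L D
      rw [← Multiset.coe_eq_coe, Multiset.coe_toList]
    have h2 := LC_mono hl.le (ih _ hl h1)
    have h3 : Es e v (l : Multiset ℕ) ∈ LC k e v r :=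
      Submodule.subset_span ⟨(l : Multiset ℕ), by simpa using hl, rfl⟩
    have := Submodule.add_mem _ h2 h3
    rwa [sub_add_cancel] at this

lemma pos_E (D : Dat k e v) (l : List ℕ) : ∀ j : ℤ, 1 ≤ j → e j • E e v l ∈ GG k e v (l.length + 1) := by
  induction l with
  | nil =>
    intro j hj
    rw [E_nil, ev D hj]
    apply Submodule.smul_mem
    have := E_memGG (k := k) (e := e) (v := v) (r := 1) [] (by simp)
    rwa [E_nil] at this
  | cons n l ih =>
    intro j hj
    rw [E_cons, comm_act D]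
    apply Submodule.add_mem
    · exact GG_act n (ih j hj)
    · apply Submodule.smul_mem
      by_cases hn : j ≤ n
      · obtain ⟨d, hd⟩ : ∃ d : ℕ, (n : ℤ) - j = d := ⟨((n : ℤ) - j).toNat, by omega⟩
        rw [show j - (n : ℤ) = -(d : ℤ) by omega, ← E_cons]
        apply E_memGG
        simp only [List.length_cons]
        omega
      · exact GG_mono (by simp) (ih (j - n) (by omega))

lemma pos_GG (D : Dat k e v) {j : ℤ} (hj : 1 ≤ j) {r : ℕ} {x : V} (hx : x ∈ GG k e v r) :
    e j • x ∈ GG k e v r := by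
  refine act_mem _ ?_ hx
  rintro x ⟨l, rfl, hl⟩
  exact GG_mono hl (pos_E D l j hj)

lemma any_GG (D : Dat k e v) (j : ℤ) {r : ℕ} {x : V} (hx : x ∈ GG k e v r) :
    e j • x ∈ GG k e v (r + 1) := by
  by_cases hj : 1 ≤ j
  · exact GG_mono (by omega) (pos_GG D hj hx)
  · obtain ⟨d, hd⟩ : ∃ d : ℕ, -j = d := ⟨(-j).toNat, by omega⟩
    rw [show j = -(d : ℤ) by omega]
    exact GG_act d hx

/-- the whole module generated by `v` consists of combinations of sorted words -/
lemma span_eq (D : Dat k e v) (hgen : Algebra.adjoin k (Set.range e) = ⊤) (u : U) :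
    ∃ c : Multiset ℕ →₀ k, u • v = Finsupp.linearCombination k (Es e v) c := by
  have h : ∀ u ∈ Algebra.adjoin k (Set.range e), ∀ x : V, (∃ r, x ∈ GG k e v r) →
      ∃ r, u • x ∈ GG k e v r := by
    intro u hu
    induction hu using Algebra.adjoin_induction with
    | mem x hx =>
      obtain ⟨j, rfl⟩ := hx
      rintro y ⟨r, hr⟩
      exact ⟨r + 1, any_GG D j hr⟩
    | algebraMap a =>
      rintro y ⟨r, hr⟩
      refine ⟨r, ?_⟩
      rw [algebraMap_smul]
      exact Submodule.smul_mem _ _ hr
    | add a b _ _ ha hb =>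
      intro y hy
      obtain ⟨r, hr⟩ := ha y hy
      obtain ⟨r', hr'⟩ := hb y hy
      refine ⟨max r r', ?_⟩
      rw [add_smul]
      exact Submodule.add_mem _ (GG_mono (le_max_left _ _) hr) (GG_mono (le_max_right _ _) hr')
    | mul a b _ _ ha hb =>
      intro y hy
      rw [mul_smul]
      exact ha _ (hb y hy)
  obtain ⟨r, hr⟩ := h u (by rw [hgen]; trivial) v ⟨1, by
    have := E_memGG (k := k) (e := e) (v := v) (r := 1) [] (by simp)
    rwa [E_nil] at this⟩
  have h2 := GG_le D r hr
  rw [LC, Finsupp.mem_span_image_iff_linearCombination] at h2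
  obtain ⟨c, -, hc⟩ := h2
  exact ⟨c, hc.symm⟩

theorem simple [CharZero k] (D : Dat k e v) (hgen : Algebra.adjoin k (Set.range e) = ⊤) :
    IsSimpleModule U (Submodule.span U {v}) := by
  rw [isSimpleModule_iff_toSpanSingleton_surjective]
  refine ⟨⟨⟨0, ⟨v, Submodule.mem_span_singleton_self v⟩, ?_⟩⟩, ?_⟩
  · intro h
    exact D.hv (by simpa using (congrArg Subtype.val h).symm)
  · rintro ⟨x, hx⟩ hx0 ⟨y, hy⟩
    obtain ⟨u, rfl⟩ := Submodule.mem_span_singleton.1 hx
    obtain ⟨u', rfl⟩ := Submodule.mem_span_singleton.1 hy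
    obtain ⟨c, hc⟩ := span_eq D hgen u
    have hc0 : c ≠ 0 := by
      rintro rfl
      apply hx0
      rw [map_zero] at hc
      exact Subtype.ext hc
    obtain ⟨a, ha⟩ := key2 D c hc0
    refine ⟨u' * a, Subtype.ext ?_⟩
    simp only [LinearMap.toSpanSingleton_apply, SetLike.mk_smul_mk]
    rw [hc, mul_smul, ha]

end Pool.Agent.TH972.PW
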