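import Pool.Agent.TH972.PW.Core3

set_option autoImplicit false
set_option linter.unusedSectionVars false

namespace Pool.Agent.TH972.PW

variable {k U V : Type*} [Field k] [Ring U] [Algebra k U]
  [AddCommGroup V] [Module k V] [Module U V] [IsScalarTower k U V]
variable {e : ℤ → U} {v : V}

def W (e : ℤ → U) (l : List ℤ) : U := (l.map e).prod

noncomputable def q (e : ℤ → U) (s : Multiset ℤ) : U := W e s.toList

lemma W_cons (j : ℤ) (l : List ℤ) : W e (j :: l) = e j * W e l := by simp [W]

/-- words of length `< r` -/
def FL (k : Type*) {U : Type*} [Field k] [Ring U] [Algebra k U] (e : ℤ → U) (r : ℕ) :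
    Submodule k U := Submodule.span k {x | ∃ l : List ℤ, x = W e l ∧ l.length < r}

lemma W_mem {r : ℕ} (l : List ℤ) (h : l.length < r) : W e l ∈ FL k e r :=
  Submodule.subset_span ⟨l, rfl, h⟩

lemma FL_mono {r r' : ℕ} (h : r ≤ r') : FL k e r ≤ FL k e r' := by
  apply Submodule.span_mono
  rintro x ⟨l, rfl, hl⟩
  exact ⟨l, rfl, by omega⟩

lemma FL_mul (j : ℤ) {r : ℕ} {x : U} (hx : x ∈ FL k e r) : e j * x ∈ FL k e (r + 1) := by
  have := map_mem (LinearMap.mulLeft k (e j)) (S := {x | ∃ l : List ℤ, x = W e l ∧ l.length < r})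
    (M := FL k e (r + 1)) (by
      rintro x ⟨l, rfl, hl⟩
      rw [LinearMap.mulLeft_apply, ← W_cons]
      apply W_mem
      simp only [List.length_cons]
      omega) hx
  simpa using this

/-- only the relations -/
def Rel (k : Type*) {U : Type*} [Field k] [Ring U] [Algebra k U] (e : ℤ → U) : Prop :=
  ∀ i j : ℤ, e i * e j - e j * e i = ((j - i : ℤ) : k) • e (i + j)

lemma P1 (D : Rel k e) {l l' : List ℤ} (h : l.Perm l') :
    W e l - W e l' ∈ FL k e l.length := by
  induction h with
  | nil => rw [sub_self]; exact Submodule.zero_mem _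
  | cons n h ih =>
    rw [W_cons, W_cons, ← mul_sub]
    exact FL_mul n ih
  | swap a b l =>
    rw [W_cons, W_cons, W_cons, W_cons, ← mul_assoc, ← mul_assoc, ← sub_mul, D b a,
      smul_mul_assoc, ← W_cons]
    apply Submodule.smul_mem
    apply W_mem
    simp only [List.length_cons]
    omega
  | trans h1 h2 ih1 ih2 =>
    rename_i l1 l2 l3
    have : W e l1 - W e l3 = (W e l1 - W e l2) + (W e l2 - W e l3) := by abel
    rw [this]
    apply Submodule.add_mem _ ih1
    rw [h1.length_eq]
    exact ih2

lemma W_q (D : Rel k e) (l : List ℤ) :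
    W e l - q e (l : Multiset ℤ) ∈ FL k e l.length := by
  apply P1 D
  rw [← Multiset.coe_eq_coe, Multiset.coe_toList]

lemma FL_le (D : Rel k e) : ∀ r : ℕ, FL k e r ≤ Submodule.span k (q e '' {s | s.card < r}) := by
  intro r
  induction r using Nat.strong_induction_on with
  | _ r ih =>
    apply Submodule.span_le.2
    rintro x ⟨l, rfl, hl⟩
    have h1 := W_q D l
    have h2 := ih _ hl h1
    have h2' : W e l - q e (l : Multiset ℤ) ∈ Submodule.span k (q e '' {s | s.card < r}) := by
      refine Submodule.span_mono (Set.image_mono ?_) h2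
      intro s hs
      exact lt_trans hs hl
    have h3 : q e (l : Multiset ℤ) ∈ Submodule.span k (q e '' {s | s.card < r}) :=
      Submodule.subset_span ⟨(l : Multiset ℤ), by simpa using hl, rfl⟩
    have := Submodule.add_mem _ h2' h3
    rwa [sub_add_cancel] at this

lemma all_q (D : Rel k e) (hgen : Algebra.adjoin k (Set.range e) = ⊤) (u : U) :
    ∃ c : Multiset ℤ →₀ k, u = Finsupp.linearCombination k (q e) c := by
  have h : ∀ u ∈ Algebra.adjoin k (Set.range e), ∀ x : U, (∃ r, x ∈ FL k e r) →
      ∃ r, u * x ∈ FL k e r := by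
    intro u hu
    induction hu using Algebra.adjoin_induction with
    | mem x hx =>
      obtain ⟨j, rfl⟩ := hx
      rintro y ⟨r, hr⟩
      exact ⟨r + 1, FL_mul j hr⟩
    | algebraMap a =>
      rintro y ⟨r, hr⟩
      refine ⟨r, ?_⟩
      rw [← Algebra.smul_def]
      exact Submodule.smul_mem _ _ hr
    | add a b _ _ ha hb =>
      intro y hy
      obtain ⟨r, hr⟩ := ha y hy
      obtain ⟨r', hr'⟩ := hb y hy
      refine ⟨max r r', ?_⟩
      rw [add_mul]
      exact Submodule.add_mem _ (FL_mono (le_max_left _ _) hr) (FL_mono (le_max_right _ _) hr')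
    | mul a b _ _ ha hb =>
      intro y hy
      rw [mul_assoc]
      exact ha _ (hb y hy)
  obtain ⟨r, hr⟩ := h u (by rw [hgen]; trivial) 1 ⟨1, by
    have := W_mem (k := k) (e := e) (r := 1) [] (by simp)
    simpa [W] using this⟩
  rw [mul_one] at hr
  have h2 := FL_le D r hr
  rw [Finsupp.mem_span_image_iff_linearCombination] at h2
  obtain ⟨c, -, hc⟩ := h2
  exact ⟨c, hc.symm⟩

/-! ### action on `v` -/

lemma Q0 (D : Dat k e v) (l : List ℤ) : W e l • v ∈ GG k e v (l.length + 1) := by
  induction l with
  | nil =>
    have := E_memGG (k := k) (e := e) (v := v) (r := 1) [] (by simp)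
    rw [E_nil] at this
    simpa [W] using this
  | cons j l ih =>
    rw [W_cons, mul_smul]
    exact any_GG D j ih

lemma Q0' (D : Dat k e v) (l : List ℤ) (h : ∃ z ∈ l, 1 ≤ z) : W e l • v ∈ GG k e v l.length := by
  induction l with
  | nil => simp at h
  | cons j l ih =>
    rw [W_cons, mul_smul]
    by_cases hj : 1 ≤ j
    · exact pos_GG D hj (Q0 D l)
    · obtain ⟨z, hz, hz1⟩ := h
      rw [List.mem_cons] at hz
      rcases hz with rfl | hz
      · exact absurd hz1 hj
      · exact any_GG D j (ih ⟨z, hz, hz1⟩)

lemma Q0n (l : List ℤ) (h : ∀ z ∈ l, z ≤ 0) :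
    W e l • v = E e v (l.map (fun z => (-z).toNat)) := by
  induction l with
  | nil => simp [W, E]
  | cons j l ih =>
    rw [W_cons, mul_smul, ih (fun z hz => h z (List.mem_cons_of_mem _ hz)), List.map_cons, E_cons]
    have := h j (by simp)
    rw [show -(((-j).toNat : ℕ) : ℤ) = j by omega]

lemma FL_v (D : Dat k e v) {r : ℕ} {x : U} (hx : x ∈ FL k e r) : x • v ∈ GG k e v r := by
  have h : FL k e r ≤ (GG k e v r).comap
      ((LinearMap.toSpanSingleton U V v).restrictScalars k) := by
    apply Submodule.span_le.2
    rintro x ⟨l, rfl, hl⟩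
    exact GG_mono hl (Q0 D l)
  exact h hx

/-! ### commutators -/

lemma sum_mem_aux {ι : Type*} {M : Submodule k U} (l : List ι) (f g : ι → U)
    (h : ∀ z ∈ l, f z - g z ∈ M) : (l.map f).sum - (l.map g).sum ∈ M := by
  induction l with
  | nil => simp
  | cons y l ih =>
    rw [List.map_cons, List.map_cons, List.sum_cons, List.sum_cons, add_sub_add_comm]
    exact Submodule.add_mem _ (h y (by simp)) (ih fun z hz => h z (List.mem_cons_of_mem _ hz))

lemma Q2 (D : Rel k e) (N : ℤ) (l : List ℤ) :
    W e l * e (-N) - e (-N) * W e l -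
      (l.map (fun z => ((-N - z : ℤ) : k) • W e ((z - N) :: l.erase z))).sum ∈
      FL k e l.length := by
  induction l with
  | nil => simp [W]
  | cons y l ih =>
    have h1 := FL_mul y ih
    have h2 : (l.map (fun z => e y * (((-N - z : ℤ) : k) • W e ((z - N) :: l.erase z)))).sum -
        (l.map (fun z => ((-N - z : ℤ) : k) • W e ((z - N) :: (y :: l).erase z))).sum ∈
        FL k e (l.length + 1) := by
      apply sum_mem_aux
      intro z hz
      rw [mul_smul_comm, ← smul_sub, ← W_cons]
      apply Submodule.smul_mem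
      have hp : (y :: (z - N) :: l.erase z).Perm ((z - N) :: (y :: l).erase z) := by
        refine (List.Perm.swap _ _ _).trans (List.Perm.cons _ ?_)
        by_cases hzy : y = z
        · subst hzy
          rw [List.erase_cons_head]
          exact (List.perm_cons_erase hz).symm
        · rw [List.erase_cons_tail (by simpa using hzy)]
      have h3 := P1 D hp
      have hl := List.length_erase_of_mem hz
      have hl2 := List.length_pos_of_mem hz
      rw [List.length_cons, List.length_cons, hl] at h3
      refine FL_mono ?_ h3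
      omega
    rw [List.sum_map_mul_left] at h2
    have h4 := Submodule.add_mem _ h1 h2
    rw [List.length_cons]
    convert h4 using 1
    rw [List.map_cons, List.sum_cons, List.erase_cons_head, W_cons, W_cons, mul_sub, mul_sub]
    have h5 := D y (-N)
    rw [show y + -N = y - N by ring] at h5
    rw [← smul_mul_assoc, ← h5, sub_mul]
    simp only [mul_assoc]
    abel

lemma q_comm (D : Rel k e) (N : ℤ) (s : Multiset ℤ) :
    q e s * e (-N) - e (-N) * q e s -
      (s.toList.map (fun z => ((-N - z : ℤ) : k) • q e ((z - N) ::ₘ s.erase z))).sum ∈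
      FL k e s.card := by
  have h := Q2 D N s.toList
  rw [Multiset.length_toList] at h
  have h2 : (s.toList.map (fun z => ((-N - z : ℤ) : k) • W e ((z - N) :: s.toList.erase z))).sum -
      (s.toList.map (fun z => ((-N - z : ℤ) : k) • q e ((z - N) ::ₘ s.erase z))).sum ∈
      FL k e s.card := by
    apply sum_mem_aux
    intro z hz
    rw [← smul_sub]
    apply Submodule.smul_mem
    have h3 := W_q D ((z - N) :: s.toList.erase z)
    have e1 : (((z - N) :: s.toList.erase z : List ℤ) : Multiset ℤ) = (z - N) ::ₘ s.erase z := by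
      rw [← Multiset.cons_coe, ← Multiset.coe_erase, Multiset.coe_toList]
    rw [e1] at h3
    have hl := List.length_erase_of_mem hz
    have hl2 := List.length_pos_of_mem hz
    rw [List.length_cons, hl, Multiset.length_toList] at h3
    rw [Multiset.length_toList] at hl2
    refine FL_mono ?_ h3
    omega
  have := Submodule.add_mem _ h h2
  convert this using 1
  unfold q
  abel

lemma com_FL (D : Rel k e) (N : ℤ) {r : ℕ} {x : U} (hx : x ∈ FL k e r) :
    x * e (-N) - e (-N) * x ∈ FL k e r := by
  have := map_mem (LinearMap.mulRight k (e (-N)) - LinearMap.mulLeft k (e (-N)))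
    (S := {x | ∃ l : List ℤ, x = W e l ∧ l.length < r}) (M := FL k e r) (by
      rintro x ⟨l, rfl, hl⟩
      rw [LinearMap.sub_apply, LinearMap.mulRight_apply, LinearMap.mulLeft_apply]
      have h := Q2 D N l
      have h2 : (l.map (fun z => ((-N - z : ℤ) : k) • W e ((z - N) :: l.erase z))).sum ∈
          FL k e r := by
        apply list_sum_mem
        intro y hy
        rw [List.mem_map] at hy
        obtain ⟨z, hz, rfl⟩ := hy
        apply Submodule.smul_mem
        apply W_mem
        rw [List.length_cons, List.length_erase_of_mem hz]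
        have := List.length_pos_of_mem hz
        omega
      have := Submodule.add_mem _ (FL_mono hl.le h) h2
      rwa [sub_add_cancel] at this) hx
  simpa using this

end Pool.Agent.TH972.PW
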