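import Pool.Agent.TH972.PW.Core4

set_option autoImplicit false
set_option linter.unusedSectionVars false

namespace Pool.Agent.TH972.PW

variable {k U V : Type*} [Field k] [Ring U] [Algebra k U]
  [AddCommGroup V] [Module k V] [Module U V] [IsScalarTower k U V]
variable {e : ℤ → U} {v : V}

/-- `s ↦ -s` -/
def ng (s : Multiset ℤ) : Multiset ℕ := s.map (fun z => (-z).toNat)

lemma ng_inj {s t : Multiset ℤ} (hs : ∀ z ∈ s, z ≤ 0) (ht : ∀ z ∈ t, z ≤ 0) (h : ng s = ng t) :
    s = t := by
  have h1 := congrArg (Multiset.map (fun n : ℕ => -(n : ℤ))) h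
  unfold ng at h1
  rw [Multiset.map_map, Multiset.map_map] at h1
  have key : ∀ u : Multiset ℤ, (∀ z ∈ u, z ≤ 0) →
      u.map ((fun n : ℕ => -(n : ℤ)) ∘ fun z => (-z).toNat) = u := by
    intro u hu
    conv_rhs => rw [← Multiset.map_id u]
    apply Multiset.map_congr rfl
    intro z hz
    have := hu z hz
    simp only [Function.comp_apply, id_eq]
    omega
  rwa [key s hs, key t ht] at h1

lemma q_neg (D : Dat k e v) (s : Multiset ℤ) (hs : ∀ z ∈ s, z ≤ 0) :
    q e s • v - Es e v (ng s) ∈ GG k e v s.card := by
  have h1 : q e s • v = E e v (s.toList.map (fun z => (-z).toNat)) :=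
    Q0n s.toList (fun z hz => hs z (Multiset.mem_toList.1 hz))
  rw [h1]
  have h2 : E e v (s.toList.map (fun z => (-z).toNat)) - E e v (ng s).toList ∈
      GG k e v (s.toList.map (fun z => (-z).toNat)).length := by
    apply K3L D
    rw [← Multiset.coe_eq_coe, Multiset.coe_toList]
    unfold ng
    conv_rhs => rw [← Multiset.coe_toList s]
    rw [Multiset.map_coe]
  simpa [Es] using h2

/-- the case of a leading monomial without positive letters -/
lemma base [CharZero k] (D : Dat k e v) (c : Multiset ℤ →₀ k) (r : ℕ)
    (hc : ∀ s ∈ c.support, s.card = r) (u : U)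
    (hu : u - Finsupp.linearCombination k (q e) c ∈ FL k e r) (s0 : Multiset ℤ)
    (hs0 : s0 ∈ c.support) (hn : ∀ z ∈ s0, z ≤ 0) : ∃ a : U, a • (u • v) = v := by
  classical
  set c1 : Multiset ℕ →₀ k :=
    c.sum (fun s a => if (∀ z ∈ s, z ≤ 0) then Finsupp.single (ng s) a else 0) with hc1
  have h1 : u • v - Finsupp.linearCombination k (Es e v) c1 ∈ GG k e v r := by
    have h2 := FL_v D hu
    rw [sub_smul] at h2
    have h3 : Finsupp.linearCombination k (q e) c • v -
        Finsupp.linearCombination k (Es e v) c1 ∈ GG k e v r := by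
      rw [Finsupp.linearCombination_apply, Finsupp.sum, Finset.sum_smul, hc1, map_finsuppSum,
        Finsupp.sum, ← Finset.sum_sub_distrib]
      apply Submodule.sum_mem
      intro s hs
      have hcs := hc s hs
      rw [smul_assoc]
      split_ifs with h
      · rw [Finsupp.linearCombination_single, ← smul_sub]
        apply Submodule.smul_mem
        rw [← hcs]
        exact q_neg D s h
      · rw [map_zero, sub_zero]
        apply Submodule.smul_mem
        push Not at h
        obtain ⟨z, hz, hz0⟩ := h
        have := Q0' D s.toList ⟨z, Multiset.mem_toList.2 hz, by omega⟩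
        rw [Multiset.length_toList, hcs] at this
        exact this
    have := Submodule.add_mem _ h2 h3
    rwa [sub_add_sub_cancel] at this
  have h4 := GG_le D r h1
  rw [LC, Finsupp.mem_span_image_iff_linearCombination] at h4
  obtain ⟨d, hd, hd2⟩ := h4
  have h5 : u • v = Finsupp.linearCombination k (Es e v) (c1 + d) := by
    rw [map_add, hd2]; abel
  rw [h5]
  apply key2 D
  intro h0
  have h6 : (c1 + d) (ng s0) = 0 := by rw [h0]; rfl
  rw [Finsupp.add_apply] at h6
  have h7 : d (ng s0) = 0 := by
    by_contra hne
    have := (Finsupp.mem_supported k d).1 hd (Finsupp.mem_support_iff.2 hne)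
    simp only [Set.mem_ofPred_eq] at this
    have h8 := hc s0 hs0
    unfold ng at this
    rw [Multiset.card_map] at this
    omega
  rw [h7, add_zero, hc1, Finsupp.sum_apply, Finsupp.sum, Finset.sum_eq_single s0] at h6
  · rw [if_pos hn, Finsupp.single_eq_same] at h6
    exact (Finsupp.mem_support_iff.1 hs0) h6
  · intro s hs hne
    split_ifs with h
    · rw [Finsupp.single_apply, if_neg]
      intro h9
      exact hne (ng_inj h hn h9)
    · rfl
  · intro h; exact absurd hs0 h

lemma count_sum (l : List ℤ) (z0 : ℤ) (b : k) :
    (l.map (fun z => if z = z0 then b else 0)).sum = (l.count z0 : k) * b := by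
  induction l with
  | nil => simp
  | cons y l ih =>
    rw [List.map_cons, List.sum_cons, ih, List.count_cons]
    by_cases h : y = z0
    · simp [h]; ring
    · simp [h]

/-- descent on the number of positive letters -/
lemma desc [CharZero k] (D : Dat k e v) : ∀ (p : ℕ) (c : Multiset ℤ →₀ k) (r : ℕ),
    (∀ s ∈ c.support, s.card = r) → ∀ u : U,
    u - Finsupp.linearCombination k (q e) c ∈ FL k e r → ∀ s0 ∈ c.support,
    (s0.filter (fun z => 1 ≤ z)).card = p → ∃ a : U, u • (a • v) ≠ 0 := by
  classical
  intro p
  induction p with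
  | zero =>
    intro c r hc u hu s0 hs0 hp
    have hn : ∀ z ∈ s0, z ≤ 0 := by
      intro z hz
      by_contra h
      have : z ∈ s0.filter (fun z => 1 ≤ z) := Multiset.mem_filter.2 ⟨hz, by omega⟩
      rw [Multiset.card_eq_zero.1 hp] at this
      simp at this
    obtain ⟨a, ha⟩ := base D c r hc u hu s0 hs0 hn
    refine ⟨1, ?_⟩
    rw [one_smul]
    intro h
    rw [h, smul_zero] at ha
    exact D.hv ha.symm
  | succ p ih =>
    intro c r hc u hu s0 hs0 hp
    obtain ⟨k0, hk0⟩ := Multiset.card_pos_iff_exists_mem.1 (show 0 < (s0.filter (fun z => 1 ≤ z)).card by omega)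
    obtain ⟨hk0m, hk01⟩ := Multiset.mem_filter.1 hk0
    -- bound of the letters
    obtain ⟨K, hK⟩ : ∃ K : ℕ, ∀ s ∈ c.support, ∀ z ∈ s, z.natAbs ≤ K := by
      refine ⟨(c.support.biUnion (fun s => s.toFinset)).sup Int.natAbs, ?_⟩
      intro s hs z hz
      exact Finset.le_sup (f := Int.natAbs) (Finset.mem_biUnion.2 ⟨s, hs, Multiset.mem_toFinset.2 hz⟩)
    set N : ℤ := 2 * K + 1 with hN
    set s1 : Multiset ℤ := (k0 - N) ::ₘ s0.erase k0 with hs1
    set c' : Multiset ℤ →₀ k := c.sum (fun s a =>
      (s.toList.map (fun z => Finsupp.single ((z - N) ::ₘ s.erase z) (((-N - z : ℤ) : k) * a))).sum)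
      with hc'
    have hcv : ∀ t, c' t = c.sum (fun s a => (s.toList.map (fun z =>
        if (z - N) ::ₘ s.erase z = t then (((-N - z : ℤ) : k) * a) else 0)).sum) := by
      intro t
      rw [hc', Finsupp.sum_apply]
      apply Finsupp.sum_congr
      intro s _
      have : ∀ l : List ℤ, ((l.map (fun z => Finsupp.single ((z - N) ::ₘ s.erase z)
          (((-N - z : ℤ) : k) * c s))).sum) t = (l.map (fun z =>
        if (z - N) ::ₘ s.erase z = t then (((-N - z : ℤ) : k) * c s) else 0)).sum := by
        intro l
        induction l with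
        | nil => simp
        | cons y l ih2 =>
          rw [List.map_cons, List.sum_cons, Finsupp.add_apply, ih2, List.map_cons, List.sum_cons,
            Finsupp.single_apply]
      exact this _
    have hsup : ∀ t ∈ c'.support, t.card = r := by
      intro t ht
      rw [Finsupp.mem_support_iff, hcv, Finsupp.sum] at ht
      obtain ⟨s, hs, hs2⟩ := Finset.exists_ne_zero_of_sum_ne_zero ht
      have : ∃ z ∈ s.toList, (z - N) ::ₘ s.erase z = t := by
        by_contra hno
        push Not at hno
        apply hs2
        apply List.sum_eq_zero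
        intro x hx
        rw [List.mem_map] at hx
        obtain ⟨z, hz, rfl⟩ := hx
        rw [if_neg (hno z hz)]
      obtain ⟨z, hz, rfl⟩ := this
      rw [Multiset.mem_toList] at hz
      rw [Multiset.card_cons, Multiset.card_erase_add_one hz]
      exact hc s hs
    have hval : c' s1 ≠ 0 := by
      rw [hcv, Finsupp.sum]
      have heq : ∀ s ∈ c.support, ∀ z ∈ s, ((z - N) ::ₘ s.erase z = s1 ↔ s = s0 ∧ z = k0) := by
        intro s hs z hz
        constructor
        · intro h
          have hz1 : z - N ∈ s1 := by rw [← h]; exact Multiset.mem_cons_self _ _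
          have hzb := hK s hs z hz
          have hzk : z = k0 := by
            rw [hs1, Multiset.mem_cons] at hz1
            rcases hz1 with h1 | h1
            · omega
            · have := hK s0 hs0 _ (Multiset.mem_of_mem_erase h1)
              omega
          subst hzk
          rw [hs1, Multiset.cons_inj_right] at h
          refine ⟨?_, rfl⟩
          rw [← Multiset.cons_erase hz, h, Multiset.cons_erase hk0m]
        · rintro ⟨rfl, rfl⟩
          rfl
      rw [Finset.sum_eq_single s0]
      · have e1 : (s0.toList.map (fun z =>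
            if (z - N) ::ₘ s0.erase z = s1 then (((-N - z : ℤ) : k) * c s0) else 0)) =
            s0.toList.map (fun z => if z = k0 then (((-N - k0 : ℤ) : k) * c s0) else 0) := by
          apply List.map_congr_left
          intro z hz
          rw [Multiset.mem_toList] at hz
          by_cases h : z = k0
          · rw [if_pos h, if_pos ((heq s0 hs0 z hz).2 ⟨rfl, h⟩), h]
          · rw [if_neg h, if_neg (fun h2 => h ((heq s0 hs0 z hz).1 h2).2)]
        rw [e1, count_sum]
        apply mul_ne_zero
        · rw [Nat.cast_ne_zero]
          have : 0 < s0.toList.count k0 := List.count_pos_iff.2 (Multiset.mem_toList.2 hk0m)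
          omega
        · apply mul_ne_zero
          · rw [Int.cast_ne_zero]
            omega
          · exact Finsupp.mem_support_iff.1 hs0
      · intro s hs hne
        apply List.sum_eq_zero
        intro x hx
        rw [List.mem_map] at hx
        obtain ⟨z, hz, rfl⟩ := hx
        rw [Multiset.mem_toList] at hz
        rw [if_neg]
        intro h
        exact hne ((heq s hs z hz).1 h).1
      · intro h; exact absurd hs0 h
    have hpos : (s1.filter (fun z => 1 ≤ z)).card = p := by
      have hkb := hK s0 hs0 k0 hk0m
      rw [hs1, Multiset.filter_cons_of_neg _ (by omega)]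
      have h2 := hp
      rw [← Multiset.cons_erase hk0m, Multiset.filter_cons_of_pos _ hk01, Multiset.card_cons] at h2
      exact Nat.add_right_cancel h2
    have hmem : (u * e (-N) - e (-N) * u) - Finsupp.linearCombination k (q e) c' ∈ FL k e r := by
      have h1 := com_FL D.rel N hu
      have h2 : (Finsupp.linearCombination k (q e) c * e (-N) -
          e (-N) * Finsupp.linearCombination k (q e) c) -
          Finsupp.linearCombination k (q e) c' ∈ FL k e r := by
        rw [hc', map_finsuppSum, Finsupp.linearCombination_apply, Finsupp.sum, Finset.sum_mul,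
          Finset.mul_sum, ← Finset.sum_sub_distrib, Finsupp.sum, ← Finset.sum_sub_distrib]
        apply Submodule.sum_mem
        intro s hs
        rw [map_list_sum, List.map_map]
        have h3 := Submodule.smul_mem _ (c s) (q_comm D.rel N s)
        rw [hc s hs] at h3
        convert h3 using 1
        rw [smul_sub, smul_sub, smul_mul_assoc, mul_smul_comm]
        congr 1
        rw [List.smul_sum, List.map_map]
        congr 1
        apply List.map_congr_left
        intro z hz
        simp only [Function.comp_apply, Finsupp.linearCombination_single]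
        rw [smul_smul, mul_comm]
      have h3 := Submodule.add_mem _ h1 h2
      convert h3 using 1
      rw [sub_mul, mul_sub]
      abel
    obtain ⟨a, ha⟩ := ih c' r hsup _ hmem s1 (Finsupp.mem_support_iff.2 hval) hpos
    by_cases h0 : u • (a • v) = 0
    · refine ⟨e (-N) * a, ?_⟩
      intro h1
      apply ha
      rw [sub_smul, mul_smul, mul_smul, h0, smul_zero, sub_zero, ← mul_smul (e (-N)), h1]
    · exact ⟨a, h0⟩

/-- faithfulness -/
theorem faithful [CharZero k] (D : Dat k e v) (hgen : Algebra.adjoin k (Set.range e) = ⊤) (u : U)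
    (hu : u ≠ 0) : ∃ a : U, u • (a • v) ≠ 0 := by
  classical
  obtain ⟨c, hc⟩ := all_q D.rel hgen u
  have hc0 : c ≠ 0 := by
    rintro rfl
    apply hu
    rw [hc, map_zero]
  obtain ⟨s0, hs0, hmax⟩ := c.support.exists_max_image (fun s => s.card)
    (Finsupp.support_nonempty_iff.2 hc0)
  let P : Multiset ℤ → Prop := fun s => s.card = s0.card
  refine desc D _ (c.filter P) s0.card ?_ u ?_ s0 ?_ rfl
  · intro s hs
    rw [Finsupp.support_filter, Finset.mem_filter] at hs
    exact hs.2
  · have hdec : c = c.filter P + c.filter (fun s => ¬ P s) := (Finsupp.filter_add_filter_not c P).symm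
    have e1 : u - Finsupp.linearCombination k (q e) (c.filter P) =
        Finsupp.linearCombination k (q e) (c.filter (fun s => ¬ P s)) := by
      have h := congrArg (fun z => Finsupp.linearCombination k (q e) z) hdec
      simp only [map_add] at h
      rw [sub_eq_iff_eq_add', ← h, hc]
    rw [e1, Finsupp.linearCombination_apply, Finsupp.sum]
    apply Submodule.sum_mem
    intro s hs
    rw [Finsupp.support_filter, Finset.mem_filter] at hs
    apply Submodule.smul_mem
    apply W_mem
    rw [Multiset.length_toList]
    exact lt_of_le_of_ne (hmax s hs.1) hs.2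
  · rw [Finsupp.support_filter, Finset.mem_filter]
    exact ⟨hs0, rfl⟩

end Pool.Agent.TH972.PW
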