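import Pool.Agent.TH972.PW.PBW
import Pool.Agent.TH972.PW.Core5

set_option autoImplicit false
set_option linter.unusedSectionVars false

namespace Pool.Agent.TH972.PW

open MvPolynomial

attribute [local instance 100] LieRing.ofAssociativeRing

variable {K : Type*} [Field K] {L : Type*} [LieRing L] [LieAlgebra K L]

/-- a Witt basis of `L`: positive indices first -/
structure WB (ee : ℤ → L) (b : Module.Basis (ℕ ⊕ₗ ℕ) K L) : Prop where
  br : ∀ i j : ℤ, ⁅ee i, ee j⁆ = ((j - i : ℤ) : K) • ee (i + j)
  bl : ∀ n : ℕ, b (toLex (Sum.inl n)) = ee ((n : ℤ) + 1)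
  bz : ∀ n : ℕ, b (toLex (Sum.inr n)) = ee (-(n : ℤ))

/-- the values of the functional -/
noncomputable def cc (K : Type*) [Field K] (i : ℕ ⊕ₗ ℕ) : K :=
  Sum.elim (fun n : ℕ => -ps K ((n : ℤ) + 1)) (fun _ => 0) (ofLex i)

noncomputable def La (K : Type*) [Field K] : MvPolynomial (ℕ ⊕ₗ ℕ) K →ₗ[K] K :=
  (MvPolynomial.aeval (cc K)).toLinearMap

lemma La_X_mul (i : ℕ ⊕ₗ ℕ) (p : MvPolynomial (ℕ ⊕ₗ ℕ) K) : La K (X i * p) = cc K i * La K p := by
  simp [La]

variable {ee : ℤ → L} {b : Module.Basis (ℕ ⊕ₗ ℕ) K L}

lemma claim (H : WB ee b) : ∀ d n : ℕ, ∀ p : MvPolynomial (ℕ ⊕ₗ ℕ) K, p.totalDegree ≤ d →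
    La K (PBW2.rho b (b (toLex (Sum.inl n))) p) = cc K (toLex (Sum.inl n)) * La K p := by
  intro d
  induction d using Nat.strong_induction_on with
  | _ d ihd =>
    intro n
    induction n using Nat.strong_induction_on with
    | _ n ihn =>
      intro p hp
      have key := PBW2.lin_ext (I := ℕ ⊕ₗ ℕ) (K := K)
        ((La K).comp (PBW2.rho b (b (toLex (Sum.inl n)))))
        ((cc K (toLex (Sum.inl n))) • (La K)) d ?_ p hp
      · simpa using key
      · intro m hm
        rw [LinearMap.comp_apply, LinearMap.smul_apply, smul_eq_mul]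
        rcases PBW2.dec (toLex (Sum.inl n)) m with h | ⟨j, P, rfl, hj, hP⟩
        · rw [PBW2.rho_le b h, La_X_mul]
        · obtain ⟨n', rfl, hn'⟩ : ∃ n' : ℕ, j = toLex (Sum.inl n') ∧ n' < n := by
            rcases hj' : ofLex j with a | a
            · refine ⟨a, by rw [← hj']; rfl, ?_⟩
              have e1 : j = toLex (Sum.inl a) := by rw [← hj']; rfl
              rw [e1] at hj
              simpa [Sum.Lex.toLex_lt_toLex] using hj
            · exfalso
              have e1 : j = toLex (Sum.inr a) := by rw [← hj']; rfl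
              rw [e1] at hj
              simp [Sum.Lex.toLex_lt_toLex] at hj
          rw [PBW2.dg_add] at hm
          have h1 : PBW2.mo K (P + Finsupp.single (toLex (Sum.inl n')) 1) =
              PBW2.rho b (b (toLex (Sum.inl n'))) (PBW2.mo K P) := by
            rw [PBW2.rho_le b hP, PBW2.X_mul_mo]
          have h2 := PBW2.com b (PBW2.dg P + 1) (b (toLex (Sum.inl n))) (b (toLex (Sum.inl n')))
            (PBW2.mo K P) (by rw [PBW2.td_mo]; omega)
          have h3 : La K (PBW2.rho b (b (toLex (Sum.inl n)))
              (PBW2.rho b (b (toLex (Sum.inl n'))) (PBW2.mo K P))) =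
              La K (PBW2.rho b (b (toLex (Sum.inl n')))
                (PBW2.rho b (b (toLex (Sum.inl n))) (PBW2.mo K P))) +
              La K (PBW2.rho b ⁅b (toLex (Sum.inl n)), b (toLex (Sum.inl n'))⁆ (PBW2.mo K P)) := by
            rw [← h2, map_sub]; ring
          have h4 : (PBW2.rho b (b (toLex (Sum.inl n))) (PBW2.mo K P)).totalDegree ≤ d := by
            have h5 := PBW2.rho_deg b (toLex (Sum.inl n)) (PBW2.mo K P)
            have h6 : PBW2.rho b (b (toLex (Sum.inl n))) (PBW2.mo K P) =
                (PBW2.rho b (b (toLex (Sum.inl n))) (PBW2.mo K P) -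
                  X (toLex (Sum.inl n)) * PBW2.mo K P) + X (toLex (Sum.inl n)) * PBW2.mo K P := by
              ring
            rw [h6]
            refine (totalDegree_add _ _).trans (max_le ?_ ?_)
            · refine h5.trans ?_
              rw [PBW2.td_mo]; omega
            · rw [PBW2.X_mul_mo, PBW2.td_mo, PBW2.dg_add]; exact hm
          have h7 : La K (PBW2.rho b ⁅b (toLex (Sum.inl n)), b (toLex (Sum.inl n'))⁆
              (PBW2.mo K P)) = 0 := by
            rw [H.bl, H.bl, H.br, show ((n : ℤ) + 1 + ((n' : ℤ) + 1)) = ((n + n' + 1 : ℕ) : ℤ) + 1 by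
              push_cast; ring, ← H.bl, map_smul, LinearMap.smul_apply, map_smul,
              ihd (PBW2.dg P) (by omega) _ _ (PBW2.td_mo P).le]
            have : cc K (toLex (Sum.inl (n + n' + 1))) = 0 := by
              simp only [cc, ofLex_toLex, Sum.elim_inl]
              unfold ps
              rw [if_neg (by push_cast; omega), neg_zero]
            rw [this]
            simp
          have h8 : La K (PBW2.mo K (P + Finsupp.single (toLex (Sum.inl n')) 1)) =
              cc K (toLex (Sum.inl n')) * La K (PBW2.mo K P) := by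
            rw [← PBW2.X_mul_mo, La_X_mul]
          rw [h8, h1, h3, h7, add_zero, ihn n' hn' _ h4,
            ihd (PBW2.dg P) (by omega) _ _ (PBW2.td_mo P).le]
          ring

lemma claim' (H : WB ee b) (n : ℕ) (p : MvPolynomial (ℕ ⊕ₗ ℕ) K) :
    La K (PBW2.rho b (ee ((n : ℤ) + 1)) p) = -ps K ((n : ℤ) + 1) * La K p := by
  rw [← H.bl, claim H p.totalDegree n p le_rfl]
  simp [cc]

/-- the contragredient representation -/
noncomputable def rep (b : Module.Basis (ℕ ⊕ₗ ℕ) K L) :
    L →ₗ⁅K⁆ Module.End K (Module.Dual K (MvPolynomial (ℕ ⊕ₗ ℕ) K)) where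
  toFun x := -(PBW2.rho b x).dualMap
  map_add' x y := by
    refine LinearMap.ext fun f => LinearMap.ext fun p => ?_
    simp only [map_add, LinearMap.neg_apply, LinearMap.dualMap_apply, LinearMap.add_apply]
    ring
  map_smul' a x := by
    refine LinearMap.ext fun f => LinearMap.ext fun p => ?_
    simp
  map_lie' {x y} := by
    refine LinearMap.ext fun f => LinearMap.ext fun p => ?_
    have h := PBW2.com b (p.totalDegree + 1) x y p (Nat.lt_succ_self _)
    simp only [LieRing.of_associative_ring_bracket, LinearMap.sub_apply, LinearMap.neg_apply,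
      LinearMap.dualMap_apply, Module.End.mul_apply, ← h, map_sub, map_neg]
    ring

theorem adjoin_top (S : Set L) (hS : Submodule.span K S = ⊤) :
    Algebra.adjoin K ((UniversalEnvelopingAlgebra.ι K : L → UniversalEnvelopingAlgebra K L) '' S) = ⊤ := by
  set A := Algebra.adjoin K ((UniversalEnvelopingAlgebra.ι K : L → UniversalEnvelopingAlgebra K L) '' S)
    with hA
  have hmem : ∀ x : L, UniversalEnvelopingAlgebra.ι K x ∈ A := by
    intro x
    have hx : x ∈ Submodule.span K S := by rw [hS]; trivial
    induction hx using Submodule.span_induction with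
    | mem y hy => exact Algebra.subset_adjoin ⟨y, hy, rfl⟩
    | zero => rw [map_zero]; exact A.zero_mem
    | add y z _ _ hy hz => rw [map_add]; exact A.add_mem hy hz
    | smul a y _ hy => rw [map_smul]; exact A.smul_mem hy a
  let g : L →ₗ⁅K⁆ A :=
    { toFun := fun x => ⟨UniversalEnvelopingAlgebra.ι K x, hmem x⟩
      map_add' := fun x y => Subtype.ext (by simp)
      map_smul' := fun a x => Subtype.ext (by simp)
      map_lie' := by
        intro x y
        apply Subtype.ext
        simp [LieRing.of_associative_ring_bracket] }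
  have h1 : A.val.comp (UniversalEnvelopingAlgebra.lift K g) = AlgHom.id K _ := by
    apply UniversalEnvelopingAlgebra.hom_ext
    ext x
    simp [g]
  rw [eq_top_iff]
  intro u _
  have h2 : A.val (UniversalEnvelopingAlgebra.lift K g u) = u := by
    have := congrArg (fun f : UniversalEnvelopingAlgebra K L →ₐ[K] UniversalEnvelopingAlgebra K L => f u) h1
    simpa using this
  rw [← h2]
  exact Subtype.property _

end Pool.Agent.TH972.PW
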