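import Pool.Agent.TH972.PW.Wit

set_option autoImplicit false

namespace Pool.Agent.TH972.PW

universe u

attribute [local instance 100] LieRing.ofAssociativeRing

variable (K : Type u) [Field K] [CharZero K]

theorem exists_module :
    ∃ (M : Type u) (_ : AddCommGroup M) (_ : Module (UniversalEnvelopingAlgebra K (Witt K)) M),
      IsSimpleModule (UniversalEnvelopingAlgebra K (Witt K)) M ∧
      ∀ x : UniversalEnvelopingAlgebra K (Witt K), (∀ m : M, x • m = 0) → x = 0 := by
  let U := UniversalEnvelopingAlgebra K (Witt K)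
  let V := Module.Dual K (MvPolynomial (ℕ ⊕ₗ ℕ) K)
  let φ : U →ₐ[K] Module.End K V := UniversalEnvelopingAlgebra.lift K (rep (bI K))
  let _ : Module U V := Module.compHom V φ.toRingHom
  have hsm : ∀ (x : U) (f : V), x • f = φ x f := fun x f => rfl
  have _ : IsScalarTower K U V := ⟨fun a x f => by
    rw [hsm, hsm, map_smul]; rfl⟩
  let e : ℤ → U := fun j => UniversalEnvelopingAlgebra.ι K (ee K j)
  let v : V := La K
  have hev : ∀ (n : ℕ), e ((n : ℤ) + 1) • v = ps K ((n : ℤ) + 1) • v := by
    intro n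
    rw [hsm]
    have h1 : φ (e ((n : ℤ) + 1)) = rep (bI K) (ee K ((n : ℤ) + 1)) := by
      show UniversalEnvelopingAlgebra.lift K (rep (bI K)) (UniversalEnvelopingAlgebra.ι K _) = _
      rw [UniversalEnvelopingAlgebra.lift_ι_apply]
    rw [h1]
    refine LinearMap.ext fun p => ?_
    have h2 := claim' (witt_WB K) n p
    show -(La K (PBW2.rho (bI K) (ee K ((n : ℤ) + 1)) p)) = ps K ((n : ℤ) + 1) * La K p
    rw [h2]
    ring
  have D : Dat K e v := by
    refine ⟨?_, ?_, ?_, ?_⟩
    · intro i j
      have h1 := LieHom.map_lie (UniversalEnvelopingAlgebra.ι K : Witt K →ₗ⁅K⁆ U) (ee K i) (ee K j)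
      rw [ee_br, map_smul, LieRing.of_associative_ring_bracket] at h1
      exact h1.symm
    · intro h
      have h1 : La K 1 = 0 := by
        show v 1 = 0
        rw [h]; rfl
      rw [La] at h1
      simp at h1
    · have := hev 1
      simpa [ps] using this
    · intro j hj hj2
      obtain ⟨n, rfl⟩ : ∃ n : ℕ, j = (n : ℤ) + 1 := ⟨(j - 1).toNat, by omega⟩
      rw [hev, ps, if_neg hj2, zero_smul]
  have hgen : Algebra.adjoin K (Set.range e) = ⊤ := by
    have h1 := adjoin_top (K := K) (Set.range (ee K)) (by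
      rw [eq_top_iff, ← (bI K).span_eq]
      apply Submodule.span_mono
      rintro x ⟨i, rfl⟩
      exact ⟨sig i, (bI_apply K i).symm⟩)
    rw [← h1, ← Set.range_comp]
    rfl
  refine ⟨Submodule.span U {v}, inferInstance, inferInstance, simple D hgen, ?_⟩
  intro x hx
  by_contra hx0
  obtain ⟨a, ha⟩ := faithful D hgen x hx0
  apply ha
  have := hx ⟨a • v, Submodule.smul_mem _ _ (Submodule.mem_span_singleton_self v)⟩
  exact congrArg Subtype.val this

end Pool.Agent.TH972.PW
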