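import Pool.Agent.TH972.PW.Fun

set_option autoImplicit false

namespace Pool.Agent.TH972.PW

open LaurentPolynomial

variable (K : Type*) [Field K]

/-- the Witt algebra: derivations of the Laurent polynomial ring -/
abbrev Witt : Type _ := Derivation K K[T;T⁻¹] K[T;T⁻¹]

/-- the monomial basis -/
noncomputable def bT : Module.Basis ℤ K K[T;T⁻¹] := AddMonoidAlgebra.basis ℤ K

lemma bT_apply (n : ℤ) : bT K n = T n := rfl

/-- `t d/dt` as a linear map -/
noncomputable def d0 : K[T;T⁻¹] →ₗ[K] K[T;T⁻¹] := (bT K).constr K (fun n : ℤ => (n : K) • T n)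

lemma d0_T (n : ℤ) : d0 K (T n) = (n : K) • T n := by
  rw [← bT_apply, d0, Module.Basis.constr_basis, bT_apply]

lemma d0_mul (a b : K[T;T⁻¹]) : d0 K (a * b) = a • d0 K b + b • d0 K a := by
  have h : (LinearMap.mul K K[T;T⁻¹]).compr₂ (d0 K) =
      ((LinearMap.mul K K[T;T⁻¹]).compl₂ (d0 K)) + (LinearMap.mul K K[T;T⁻¹]).comp (d0 K) := by
    refine (bT K).ext fun i => (bT K).ext fun j => ?_
    simp only [bT_apply, LinearMap.compr₂_apply, LinearMap.mul_apply', LinearMap.add_apply,
      LinearMap.compl₂_apply, LinearMap.comp_apply]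
    rw [← T_add, d0_T, d0_T, d0_T, mul_smul_comm, smul_mul_assoc, ← T_add, ← add_smul]
    push_cast
    rw [add_comm (i : K)]
  have h2 := congrArg (fun f => f a b) h
  simp only [LinearMap.compr₂_apply, LinearMap.mul_apply', LinearMap.add_apply,
      LinearMap.compl₂_apply, LinearMap.comp_apply] at h2
  rw [h2, smul_eq_mul, smul_eq_mul, mul_comm (d0 K a)]

/-- `t d/dt` -/
noncomputable def Dd : Witt K := Derivation.mk' (d0 K) (d0_mul K)

lemma Dd_T (n : ℤ) : Dd K (T n) = (n : K) • T n := d0_T K n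

/-- `e_n = t^(n+1) d/dt` -/
noncomputable def ee (n : ℤ) : Witt K := (T n : K[T;T⁻¹]) • Dd K

lemma ee_br (m n : ℤ) : ⁅ee K m, ee K n⁆ = ((n - m : ℤ) : K) • ee K (m + n) := by
  ext a : 1
  rw [Derivation.commutator_apply, Derivation.smul_apply]
  simp only [ee, Derivation.smul_apply, smul_eq_mul, Derivation.leibniz, Dd_T, T_add]
  generalize Dd K (Dd K a) = x
  generalize Dd K a = y
  push_cast
  simp only [mul_smul_comm, sub_smul]
  ring_nf

lemma der_zero (E : Witt K) (h : E (T 1) = 0) : E = 0 := by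
  have hnat : ∀ n : ℕ, E (T (n : ℤ)) = 0 := by
    intro n
    have e1 : (T (n : ℤ) : K[T;T⁻¹]) = (T 1) ^ n := by
      rw [T_pow, mul_one]
    rw [e1, Derivation.leibniz_pow, h]
    simp
  have hint : ∀ n : ℤ, E (T n) = 0 := by
    intro n
    obtain ⟨m, rfl | rfl⟩ := n.eq_nat_or_neg
    · exact hnat m
    · have h1 : (T (-(m : ℤ)) : K[T;T⁻¹]) * T (m : ℤ) = 1 := by
        rw [← T_add, neg_add_cancel, T_zero]
      rw [Derivation.leibniz_of_mul_eq_one E h1, hnat, smul_zero]
  have h2 : (E : K[T;T⁻¹] →ₗ[K] K[T;T⁻¹]) = 0 := by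
    refine (bT K).ext fun i => ?_
    rw [bT_apply]
    exact hint i
  ext a : 1
  exact congrArg (fun f : K[T;T⁻¹] →ₗ[K] K[T;T⁻¹] => f a) h2

/-- `W = K[t,t⁻¹] t d/dt` -/
noncomputable def Phi : K[T;T⁻¹] ≃ₗ[K] Witt K where
  toFun f := f • Dd K
  map_add' f g := add_smul f g (Dd K)
  map_smul' a f := by
    rw [RingHom.id_apply, smul_assoc]
  invFun D := T (-1) * D (T 1)
  left_inv f := by
    show T (-1) * (f • Dd K) (T 1) = f
    rw [Derivation.smul_apply, Dd_T, Int.cast_one, one_smul, smul_eq_mul, mul_left_comm, ← T_add]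
    simp
  right_inv D := by
    show (T (-1) * D (T 1)) • Dd K = D
    rw [← sub_eq_zero]
    apply der_zero
    rw [Derivation.sub_apply, Derivation.smul_apply, Dd_T, Int.cast_one, one_smul, smul_eq_mul,
      mul_right_comm, ← T_add]
    simp

/-- the index set: positive integers first -/
def sig : (ℕ ⊕ₗ ℕ) ≃ ℤ where
  toFun i := Sum.elim (fun n : ℕ => (n : ℤ) + 1) (fun n : ℕ => -(n : ℤ)) (ofLex i)
  invFun z := if 1 ≤ z then toLex (Sum.inl (z - 1).toNat) else toLex (Sum.inr (-z).toNat)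
  left_inv i := by
    rcases h : ofLex i with n | n
    · have : i = toLex (Sum.inl n) := by rw [← h]; rfl
      subst this
      simp
    · have : i = toLex (Sum.inr n) := by rw [← h]; rfl
      subst this
      show (if 1 ≤ (-(n : ℤ)) then toLex (Sum.inl (-(n : ℤ) - 1).toNat)
        else toLex (Sum.inr (-(-(n : ℤ))).toNat)) = toLex (Sum.inr n)
      rw [if_neg (by omega)]
      simp
  right_inv z := by
    by_cases h : 1 ≤ z
    · simp only [if_pos h, ofLex_toLex, Sum.elim_inl]
      omega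
    · simp only [if_neg h, ofLex_toLex, Sum.elim_inr]
      omega

noncomputable def bI : Module.Basis (ℕ ⊕ₗ ℕ) K (Witt K) := ((bT K).map (Phi K)).reindex sig.symm

lemma bI_apply (i : ℕ ⊕ₗ ℕ) : bI K i = ee K (sig i) := by
  rw [bI, Module.Basis.reindex_apply, Equiv.symm_symm, Module.Basis.map_apply, bT_apply]
  rfl

lemma witt_WB : WB (ee K) (bI K) where
  br := ee_br K
  bl n := by rw [bI_apply]; rfl
  bz n := by rw [bI_apply]; rfl

end Pool.Agent.TH972.PW
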